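import Mathlib
import Pool.Agent.Helper50_PN.Defs
import Pool.Agent.Helper50_PN.Stmts

/-!
# Squad PN: module JET

If all the families of the class with the reserve `B` vanish at the jets, then the coordinates of
order zero satisfy an algebraic condition.
-/

set_option autoImplicit false

universe u

open MvPolynomial

namespace Pool.Agent.PN.H69

open Pool.Agent.PN

/-- the weight bound is monotone -/
theorem deg_mono69 {V : Type*} {R : Type*} [CommSemiring R] {w : V → ℕ} {d d' : ℕ}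
    (hd : d ≤ d') {P : MvPolynomial V R} (h : Deg w d P) : Deg w d' P :=
  fun s hs => (h s hs).trans hd

/-- the classes are monotone in the degree -/
theorem cls_mono69 {n N k m' d d' m : ℕ} (hd : d ≤ d') {P : Pol n N k}
    (h : Cls.{u} m' d m P) : Cls.{u} m' d' m P :=
  ⟨fun l => deg_mono69 hd (h.deg l), h.wt, h.nod⟩

/-- the vector fields -/
noncomputable def fld69 {n N k : ℕ} (τ : (Fin n × Fin (k + 1)) ⊕ (Fin n × Fin N)) :
    Derivation ℤ (Pol n N k) (Pol n N k) :=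
  Sum.elim (fun p => T p.1 (p.2 : ℕ)) (fun p => A p.1 p.2) τ

/-- the family vanishes at all jets with the given coordinates of order zero -/
theorem van69 (hclo : CloStmt.{u}) (hspa : SpaStmt.{u}) (hspn : SpnStmt.{u})
    (hver : VerStmt.{u}) {n N k m' B m : ℕ} (hB : B + (k + 1) * m ≤ N * m') (P : Pol n N k)
    (hP : Cls.{u} m' (N * m' - (B + (k + 1) * m)) m P)
    {E : Type u} [Field E] [CharZero E] (a : Fin n → Fin N → E) (x : Fin n → PowerSeries E)
    (hx1 : ∀ l, PowerSeries.coeff 1 (x l) ≠ 0)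
    (hx0 : ∀ l j, PowerSeries.coeff 0 (x l) ≠ a l j)
    (hall : ∀ Q : Pol n N k, Cls.{u} m' (N * m' - B) m Q → evP a x Q = 0)
    (q : Sig n N k → E) (hq1 : ∀ l j, q (Sum.inl (l, j)) = a l j)
    (hq2 : ∀ l, q (Sum.inr (l, 0)) = PowerSeries.coeff 0 (x l)) : aeval q P = 0 := by
  refine hver n N k m P hP.wt (vals a x) q ?_ ?_ ?_
  · rintro ⟨l, j⟩
    rw [hq1 l j]
    rfl
  · intro l
    rw [hq2 l]
    rfl
  · refine hspn (vals a x)
      (fun e => {Q : Pol n N k | Cls.{u} m' (N * m' - (B + (k + 1) * m) + e) m Q})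
      (fld69 (n := n) (N := N) (k := k)) (k + 1) ((k + 1) * m) ?_ ?_ ?_ m 0 P ?_ ?_
    · rintro (⟨l, r⟩ | ⟨l, j⟩) e Q hQ
      · have h := (hclo n N k m' _ m Q hQ).1 l (r : ℕ) (Nat.lt_succ_iff.mp r.2)
        exact cls_mono69 (le_of_eq (Nat.add_assoc _ _ _)) h
      · have h := (hclo n N k m' _ m Q hQ).2 l j
        exact cls_mono69 (le_of_eq (Nat.add_assoc _ _ _)) h
    · intro e Q he hQ
      refine hall Q (cls_mono69 ?_ hQ)
      omega
    · intro v
      exact hspa n N k a x hx1 hx0 v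
    · omega
    · exact hP

/-- JET -/
theorem jet (hexi : ExiStmt.{u}) (hclo : CloStmt.{u}) (hspa : SpaStmt.{u})
    (hspn : SpnStmt.{u}) (hver : VerStmt.{u}) (hcoe : CoeStmt.{u}) : JetStmt.{u} := by
  intro n hn
  obtain ⟨k, m, m', hk, hm', h⟩ := hexi n hn
  obtain ⟨N₀, hN₀⟩ := h (m + (6 + n) * m' + 1 + (k + 1) * m)
  refine ⟨k, m, m', m + (6 + n) * m' + 1, hk, hm', le_refl _, N₀, ?_⟩
  intro N hN
  obtain ⟨hB, P, hP0, hP⟩ := hN₀ N hN
  obtain ⟨F, hF0, hF⟩ := hcoe n N k P hP0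
  refine ⟨(Nat.le_add_right _ _).trans hB, F, hF0, ?_⟩
  intro E _ _ a x hx1 hx0 hall
  refine hF a (fun l => PowerSeries.coeff 0 (x l)) ?_
  intro q hq1 hq2
  exact van69 hclo hspa hspn hver hB P hP a x hx1 hx0 hall q hq1 hq2

end Pool.Agent.PN.H69
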