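import Pool.Agent.Helper50_PN.Stmts

/-!
# Squad PN, module SPA: the vector fields span the tangent space
-/

set_option autoImplicit false

universe u

namespace Pool.Agent.PN.H69

open MvPolynomial Pool.Agent.PN

section

variable {n N k : ℕ} {E : Type u} [Field E] (a : Fin n → Fin N → E) (x : Fin n → PowerSeries E)

theorem coeff_pow_congr {R : Type*} [CommRing R] (f g : PowerSeries R)
    (h : ∀ s ≤ k, PowerSeries.coeff s f = PowerSeries.coeff s g) (r : ℕ) :
    ∀ s ≤ k, PowerSeries.coeff s (f ^ r) = PowerSeries.coeff s (g ^ r) := by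
  induction r with
  | zero => intro s _; rw [pow_zero, pow_zero]
  | succ r ih =>
    intro s hs
    rw [pow_succ, pow_succ, PowerSeries.coeff_mul, PowerSeries.coeff_mul]
    refine Finset.sum_congr rfl fun p hp => ?_
    rw [Finset.HasAntidiagonal.mem_antidiagonal] at hp
    rw [ih p.1 (by omega), h p.2 (by omega)]

theorem evP_gen (l : Fin n) (r : ℕ) (s : ℕ) (hs : s ≤ k) :
    evP a x (PowerSeries.coeff s (gen l ^ r : PowerSeries (Pol n N k))) =
      PowerSeries.coeff s ((x l) ^ r) := by
  have h1 : evP a x (PowerSeries.coeff s (gen l ^ r : PowerSeries (Pol n N k))) =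
      PowerSeries.coeff s ((PowerSeries.map ((evP a x : Pol n N k →ₐ[ℤ] E) : Pol n N k →+* E)
        (gen l)) ^ r) := by
    rw [← map_pow, PowerSeries.coeff_map]
    rfl
  rw [h1]
  refine coeff_pow_congr (k := k) _ _ ?_ r s hs
  intro t ht
  rw [PowerSeries.coeff_map, gen, PowerSeries.coeff_mk, dif_pos (Nat.lt_succ_of_le ht)]
  change evP a x (X (Sum.inr (l, ⟨t, _⟩))) = _
  rw [evP, aeval_X]
  rfl

/-- the vector fields -/
noncomputable def dl (n N k : ℕ) (τ : (Fin n × Fin (k + 1)) ⊕ (Fin n × Fin N)) :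
    Derivation ℤ (Pol n N k) (Pol n N k) :=
  Sum.elim (fun p => T p.1 (p.2 : ℕ)) (fun p => A p.1 p.2) τ

/-- their values -/
noncomputable def Fv (τ : (Fin n × Fin (k + 1)) ⊕ (Fin n × Fin N)) : Sig n N k → E :=
  fun w => evP a x (dl n N k τ (X w))

theorem Fv_A (l : Fin n) (j : Fin N) :
    Fv (k := k) a x (Sum.inr (l, j)) =
      (PowerSeries.coeff 0 (x l) - a l j) ^ (k + 1) • Pi.single (Sum.inl (l, j)) 1 := by
  funext w
  rw [Pi.smul_apply, Fv, dl, Sum.elim_inr, A, mkDerivation_X]
  rcases w with w | w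
  · rw [Sum.elim_inl]
    by_cases h : w = (l, j)
    · subst h
      rw [if_pos rfl, Pi.single_eq_same, smul_eq_mul, mul_one, map_pow, map_sub, evP, aeval_X,
        aeval_X]
      rfl
    · rw [if_neg h, map_zero, Pi.single_eq_of_ne, smul_zero]
      exact fun h2 => h (Sum.inl_injective h2)
  · rw [Sum.elim_inr, map_zero, Pi.single_eq_of_ne, smul_zero]
    exact fun h2 => by cases h2

theorem Fv_T_inl (l : Fin n) (r : Fin (k + 1)) (w : Fin n × Fin N) :
    Fv a x (Sum.inl (l, r)) (Sum.inl w) = if w.1 = l then a w.1 w.2 ^ (r : ℕ) else 0 := by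
  rw [Fv, dl, Sum.elim_inl, T, mkDerivation_X, Sum.elim_inl]
  split_ifs
  · rw [map_pow, evP, aeval_X]
    rfl
  · rw [map_zero]

theorem Fv_T_inr (l : Fin n) (r : Fin (k + 1)) (w : Fin n × Fin (k + 1)) :
    Fv (N := N) a x (Sum.inl (l, r)) (Sum.inr w) =
      if w.1 = l then PowerSeries.coeff (w.2 : ℕ) ((x l) ^ (r : ℕ)) else 0 := by
  rw [Fv, dl, Sum.elim_inl, T, mkDerivation_X, Sum.elim_inr]
  split_ifs
  · exact evP_gen a x l r w.2 (Nat.lt_succ_iff.mp w.2.2)
  · rw [map_zero]

end

/-- SPA -/
theorem spa (hdet : DetStmt.{u}) : SpaStmt.{u} := by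
  classical
  intro E _ _ n N k a x h1 h2 v
  suffices h : (Pi.single v 1 : Sig n N k → E) ∈
      Submodule.span E (Set.range (Fv (k := k) a x)) by
    obtain ⟨c, hc⟩ := (Finsupp.mem_span_range_iff_exists_finsupp).mp h
    refine ⟨c, fun w => ?_⟩
    have h3 := congrFun hc w
    rw [Finsupp.sum, Finset.sum_apply] at h3
    rw [Finsupp.sum, Pi.single_apply] at *
    rw [← h3]
    rfl
  have hA : ∀ l j, (Pi.single (Sum.inl (l, j)) 1 : Sig n N k → E) ∈
      Submodule.span E (Set.range (Fv (k := k) a x)) := by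
    intro l j
    have hb : (PowerSeries.coeff 0 (x l) - a l j) ^ (k + 1) ≠ 0 :=
      pow_ne_zero _ (sub_ne_zero.mpr (h2 l j))
    have h3 := Submodule.smul_mem (Submodule.span E (Set.range (Fv (k := k) a x)))
      (((PowerSeries.coeff 0 (x l) - a l j) ^ (k + 1))⁻¹)
      (Submodule.subset_span ⟨Sum.inr (l, j), rfl⟩)
    rw [Fv_A, smul_smul, inv_mul_cancel₀ hb, one_smul] at h3
    exact h3
  rcases v with ⟨l, j⟩ | ⟨l, s₀⟩
  · exact hA l j
  · set M : Matrix (Fin (k + 1)) (Fin (k + 1)) E :=
      Matrix.of fun r s : Fin (k + 1) => PowerSeries.coeff (s : ℕ) ((x l) ^ (r : ℕ)) with hM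
    have hMd : IsUnit M.det := isUnit_iff_ne_zero.mpr (hdet k (x l) (h1 l))
    set d : Fin (k + 1) → E := fun r => M⁻¹ s₀ r with hd
    have hdM : ∀ s, ∑ r, d r * M r s = if s = s₀ then 1 else 0 := by
      intro s
      have h3 := congrFun (congrFun (Matrix.nonsing_inv_mul M hMd) s₀) s
      rw [Matrix.mul_apply, Matrix.one_apply] at h3
      rw [h3]
      by_cases h : s₀ = s
      · rw [if_pos h, if_pos h.symm]
      · rw [if_neg h, if_neg (Ne.symm h)]
    have h4 : (Pi.single (Sum.inr (l, s₀)) 1 : Sig n N k → E) =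
        ∑ r, d r • Fv (k := k) a x (Sum.inl (l, r)) -
          ∑ j, (∑ r, d r * a l j ^ (r : ℕ)) • (Pi.single (Sum.inl (l, j)) 1 : Sig n N k → E) := by
      funext w
      rw [Pi.sub_apply, Finset.sum_apply, Finset.sum_apply]
      simp only [Pi.smul_apply, smul_eq_mul]
      rcases w with ⟨l', j'⟩ | ⟨l', s⟩
      · rw [Pi.single_eq_of_ne (by exact fun h => by cases h)]
        by_cases hl : l' = l
        · subst hl
          rw [Finset.sum_eq_single j']
          · rw [Pi.single_eq_same, mul_one, eq_comm, sub_eq_zero]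
            refine Finset.sum_congr rfl fun r _ => ?_
            rw [Fv_T_inl, if_pos rfl]
          · intro j _ hj
            rw [Pi.single_eq_of_ne, mul_zero]
            intro h
            exact hj (Prod.ext_iff.mp (Sum.inl_injective h)).2.symm
          · intro h
            exact absurd (Finset.mem_univ _) h
        · rw [Finset.sum_eq_zero, Finset.sum_eq_zero, sub_zero]
          · intro j _
            rw [Pi.single_eq_of_ne, mul_zero]
            intro h
            exact hl (Prod.ext_iff.mp (Sum.inl_injective h)).1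
          · intro r _
            rw [Fv_T_inl, if_neg hl, mul_zero]
      · have h5 : ∑ j, (∑ r, d r * a l j ^ (r : ℕ)) *
            (Pi.single (Sum.inl (l, j)) 1 : Sig n N k → E) (Sum.inr (l', s)) = 0 := by
          refine Finset.sum_eq_zero fun j _ => ?_
          rw [Pi.single_eq_of_ne (by exact fun h => by cases h), mul_zero]
        rw [h5, sub_zero]
        by_cases hl : l' = l
        · subst hl
          have h6 : ∑ r, d r * Fv (k := k) a x (Sum.inl (l', r)) (Sum.inr (l', s)) =
              ∑ r, d r * M r s := by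
            refine Finset.sum_congr rfl fun r _ => ?_
            rw [Fv_T_inr, if_pos rfl]
            rfl
          rw [h6, hdM]
          by_cases hs : s = s₀
          · subst hs
            rw [Pi.single_eq_same, if_pos rfl]
          · rw [if_neg hs, Pi.single_eq_of_ne]
            intro h
            exact hs (Prod.ext_iff.mp (Sum.inr_injective h)).2
        · rw [Pi.single_eq_of_ne]
          · rw [eq_comm]
            refine Finset.sum_eq_zero fun r _ => ?_
            rw [Fv_T_inr, if_neg hl, mul_zero]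
          · intro h
            exact hl (Prod.ext_iff.mp (Sum.inr_injective h)).1
    rw [h4]
    refine Submodule.sub_mem _ (Submodule.sum_mem _ fun r _ => ?_)
      (Submodule.sum_mem _ fun j _ => Submodule.smul_mem _ _ (hA l j))
    exact Submodule.smul_mem _ _ (Submodule.subset_span ⟨_, rfl⟩)

end Pool.Agent.PN.H69
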